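import Pool.Agent.helper24.IC.Spec

set_option autoImplicit false

namespace Pool.Agent.IC

universe u

/-- the left ideal of the `x` with `x g = x` -/
def DEP_I {T : Type u} [Ring T] (g : T) : Ideal T where
  carrier := {x | x * g = x}
  add_mem' := by
    intro a b ha hb
    show (a + b) * g = a + b
    rw [add_mul]
    exact congrArg₂ (· + ·) ha hb
  zero_mem' := zero_mul g
  smul_mem' := by
    intro c x hx
    show (c * x) * g = c * x
    rw [mul_assoc]
    exact congrArg (c * ·) hx

theorem DEP_mem {T : Type u} [Ring T] (g x : T) : x ∈ DEP_I g ↔ x * g = x := Iff.rfl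

theorem DEP_simple {T : Type u} [Ring T] (g : T) (hg0 : g ≠ 0) (hgg : g * g = g)
    (hp : ∀ x : T, x * g = 0 ∨ ∃ y : T, y * (x * g) = g) : IsSimpleModule T (DEP_I g) := by
  rw [isSimpleModule_iff_toSpanSingleton_surjective]
  refine ⟨⟨⟨⟨g, hgg⟩, 0, ?_⟩⟩, ?_⟩
  · intro h
    exact hg0 (congrArg Subtype.val h)
  · intro x hx z
    have hx0 : (x : T) ≠ 0 := fun h => hx (Subtype.ext h)
    have hxg : (x : T) * g = x := x.2
    have hzg : (z : T) * g = z := z.2
    rcases hp (x : T) with h | ⟨y, hy⟩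
    · rw [hxg] at h
      exact absurd h hx0
    · refine ⟨(z : T) * y, ?_⟩
      apply Subtype.ext
      show ((z : T) * y) * (x : T) = z
      rw [hxg] at hy
      rw [mul_assoc, hy, hzg]

/-- the linear map -/
def DEP_f {T : Type u} [Ring T] (g : T) {m q : ℕ} (w : Fin m → Fin q → T)
    (hw : ∀ i l, w i l * g = w i l) : (Fin m → DEP_I g) →ₗ[T] (Fin q → DEP_I g) where
  toFun c := fun l => ⟨∑ i, (c i : T) * w i l, by
    show (∑ i, (c i : T) * w i l) * g = ∑ i, (c i : T) * w i l
    rw [Finset.sum_mul]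
    exact Finset.sum_congr rfl fun i _ => by rw [mul_assoc, hw]⟩
  map_add' := by
    intro a b
    funext l
    apply Subtype.ext
    show ∑ i, ((a i : T) + (b i : T)) * w i l = (∑ i, (a i : T) * w i l) + ∑ i, (b i : T) * w i l
    rw [← Finset.sum_add_distrib]
    exact Finset.sum_congr rfl fun i _ => add_mul _ _ _
  map_smul' := by
    intro t a
    funext l
    apply Subtype.ext
    show ∑ i, (t * (a i : T)) * w i l = t * ∑ i, (a i : T) * w i l
    rw [Finset.mul_sum]
    exact Finset.sum_congr rfl fun i _ => mul_assoc _ _ _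

theorem DEP (hLEN : LEN_stmt.{u}) : DEP_stmt.{u} := by
  intro S _ R g hgR hg0 hgg hp m q hqm w hw
  have hs : IsSimpleModule R (DEP_I (⟨g, hgR⟩ : R)) := by
    apply DEP_simple
    · intro h
      exact hg0 (congrArg Subtype.val h)
    · exact Subtype.ext hgg
    · intro x
      rcases hp (x : S) x.2 with h | ⟨y, hyR, hy⟩
      · left
        exact Subtype.ext h
      · right
        exact ⟨⟨y, hyR⟩, Subtype.ext hy⟩
  obtain ⟨c, hc0, hfc⟩ := hLEN R (DEP_I (⟨g, hgR⟩ : R)) m q hqm
    (DEP_f (⟨g, hgR⟩ : R) (fun i l => (⟨w i l, (hw i l).1⟩ : R))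
      (fun i l => Subtype.ext (hw i l).2.1))
  refine ⟨fun i => ((c i : R) : S), fun i => ⟨(c i : R).2, ?_⟩, ?_, ?_⟩
  · have h : (c i : R) * ⟨g, hgR⟩ = (c i : R) := (c i).2
    exact congrArg Subtype.val h
  · by_contra hcon
    apply hc0
    funext i
    by_contra h
    apply hcon
    refine ⟨i, fun h' => h ?_⟩
    exact Subtype.ext (Subtype.ext h')
  · intro l
    have h1 := congrArg (fun v => (((v l : DEP_I (⟨g, hgR⟩ : R)) : R) : S)) hfc
    have h2 : (((∑ i, (c i : R) * (⟨w i l, (hw i l).1⟩ : R) : R)) : S) = 0 := h1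
    rw [AddSubmonoidClass.coe_finset_sum] at h2
    exact h2

end Pool.Agent.IC
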